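import Pool.Agent.helper34.FJ3.DefsB

set_option autoImplicit false
set_option linter.unusedVariables false

/-!
# Discrete geodesics in locally CAT(0) spaces
-/

namespace Pool.Agent.helper37.FJ3

open Pool.Agent.helper34.FJ3
open scoped BigOperators

section

variable {M : Type} [MetricSpace M] {r0 : ℝ} {k : ℕ}

/-- `m` is the midpoint of `x` and `y` and satisfies the inequality of Bruhat and Tits -/
def IsMid (r0 : ℝ) (x y m : M) : Prop :=
  ∀ z, dist z x < r0 → dist z y < r0 →
    dist z m ^ 2 ≤ dist z x ^ 2 / 2 + dist z y ^ 2 / 2 - dist x y ^ 2 / 4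

theorem exists_mid (h : LCN M r0) {x y : M} (hxy : dist x y < r0) : ∃ m, IsMid r0 x y m := by
  obtain ⟨m, hm⟩ := h.2 x y hxy (1 / 2) (by norm_num) (by norm_num)
  refine ⟨m, fun z hx hy => ?_⟩
  have := hm z hx hy
  linarith

theorem IsMid.left {x y m : M} (hm : IsMid r0 x y m) (h0 : 0 < r0) (hxy : dist x y < r0) :
    dist x m ≤ dist x y / 2 := by
  have h1 := hm x (by rw [dist_self]; exact h0) hxy
  rw [dist_self] at h1
  apply le_of_sq_le_sq _ (by positivity)
  nlinarith

theorem IsMid.right {x y m : M} (hm : IsMid r0 x y m) (h0 : 0 < r0) (hxy : dist x y < r0) :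
    dist y m ≤ dist x y / 2 := by
  have h1 := hm y (by rw [dist_comm]; exact hxy) (by rw [dist_self]; exact h0)
  rw [dist_self, dist_comm y x] at h1
  apply le_of_sq_le_sq _ (by positivity)
  nlinarith

theorem IsMid.left' {x y m : M} (hm : IsMid r0 x y m) (h0 : 0 < r0) (hxy : dist x y < r0) :
    dist x m = dist x y / 2 := by
  have h1 := hm.left h0 hxy
  have h2 := hm.right h0 hxy
  have h3 := dist_triangle x m y
  rw [dist_comm m y] at h3
  linarith

theorem IsMid.right' {x y m : M} (hm : IsMid r0 x y m) (h0 : 0 < r0) (hxy : dist x y < r0) :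
    dist y m = dist x y / 2 := by
  have h1 := hm.left h0 hxy
  have h2 := hm.right h0 hxy
  have h3 := dist_triangle x m y
  rw [dist_comm m y] at h3
  linarith

/-- uniqueness of midpoints -/
theorem IsMid.eq {x y m z : M} (hm : IsMid r0 x y m) (h0 : 0 < r0) (hxy : dist x y < r0)
    (hx : dist x z ≤ dist x y / 2) (hy : dist y z ≤ dist x y / 2) : z = m := by
  have hd : 0 ≤ dist x y := dist_nonneg
  have h1 := hm z (by rw [dist_comm]; linarith) (by rw [dist_comm]; linarith)
  rw [dist_comm z x, dist_comm z y] at h1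
  have h2 : dist x z ^ 2 ≤ (dist x y / 2) ^ 2 := pow_le_pow_left₀ dist_nonneg hx 2
  have h3 : dist y z ^ 2 ≤ (dist x y / 2) ^ 2 := pow_le_pow_left₀ dist_nonneg hy 2
  have h4 : dist z m ^ 2 ≤ 0 := by nlinarith
  have h5 : dist z m = 0 := by
    have := sq_nonneg (dist z m)
    exact pow_eq_zero_iff (two_ne_zero) |>.1 (le_antisymm h4 this)
  exact dist_eq_zero.1 h5

theorem IsMid.of_eq (h : LCN M r0) {x y z : M} (hxy : dist x y < r0)
    (hx : dist x z ≤ dist x y / 2) (hy : dist y z ≤ dist x y / 2) : IsMid r0 x y z := by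
  obtain ⟨m, hm⟩ := exists_mid h hxy
  rw [hm.eq h.1 hxy hx hy]
  exact hm

theorem IsMid.symm {x y m : M} (hm : IsMid r0 x y m) : IsMid r0 y x m := by
  intro z hx hy
  have := hm z hy hx
  rw [dist_comm y x]
  linarith

/-- triangles are thin -/
theorem IsMid.thin {x y y' m m' : M} (hm : IsMid r0 x y m) (hm' : IsMid r0 x y' m')
    (h0 : 0 < r0) (h1 : dist x y < r0 / 2) (h2 : dist x y' < r0 / 2) (h3 : dist y y' < r0 / 2) :
    dist m m' ≤ dist y y' / 2 := by
  have a1 := hm'.left' h0 (by linarith)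
  have a2 := hm'.right' h0 (by linarith)
  have a3 : dist m' y < r0 := by
    have := dist_triangle m' y' y
    rw [dist_comm m' y', dist_comm y' y] at this
    linarith
  have b1 := hm m' (by rw [dist_comm]; linarith) a3
  have b2 := hm' y (by rw [dist_comm]; linarith) (by linarith)
  rw [dist_comm m' m, dist_comm m' x, a1, dist_comm m' y] at b1
  rw [dist_comm y x] at b2
  apply le_of_sq_le_sq _ (by positivity)
  nlinarith

/-- the distance of midpoints -/
theorem IsMid.dist_le {x y x' y' m m' : M} (h : LCN M r0) (hm : IsMid r0 x y m)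
    (hm' : IsMid r0 x' y' m') (h1 : dist x y < r0 / 2) (h2 : dist x' y' < r0 / 2)
    (h3 : dist x y' < r0 / 2) (h4 : dist x x' < r0 / 2) (h5 : dist y y' < r0 / 2) :
    dist m m' ≤ (dist x x' + dist y y') / 2 := by
  have h0 := h.1
  obtain ⟨n, hn⟩ := exists_mid h (x := x) (y := y') (by linarith)
  have a1 := hm.thin hn h0 h1 h3 h5
  have a2 := hn.symm.thin hm'.symm h0 (by rw [dist_comm]; exact h3) (by rw [dist_comm]; exact h2) h4
  have := dist_triangle m n m'
  linarith

/-! ### discrete convexity -/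

theorem discrete_conv (f : ℕ → ℝ) (h0 : f 0 ≤ 0)
    (h : ∀ i, i + 1 < k → 2 * f (i + 1) ≤ f i + f (i + 2)) (hk : 0 < k) :
    ∀ i, i ≤ k → f i ≤ (i / k : ℝ) * f k := by
  have h1 : ∀ i, i < k → ((i : ℝ) + 1) * f i ≤ (i : ℝ) * f (i + 1) := by
    intro i
    induction i with
    | zero => intro _; simpa using h0
    | succ i ih =>
      intro hi
      have a1 := ih (by omega)
      have a2 := h i hi
      push_cast
      have : (0 : ℝ) ≤ (i : ℝ) := Nat.cast_nonneg i
      nlinarith
  have h2 : ∀ j i, i ≤ j → 0 < j → j ≤ k → (j : ℝ) * f i ≤ (i : ℝ) * f j := by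
    intro j
    induction j with
    | zero => intro i _ h; omega
    | succ j ih =>
      intro i hij _ hj
      rcases Nat.eq_or_lt_of_le hij with e | hlt
      · rw [e]
      · rcases Nat.eq_zero_or_pos j with e | hpos
        · subst e
          have : i = 0 := by omega
          subst this
          simpa using h0
        · have a1 := ih i (by omega) hpos (by omega)
          have a2 := h1 j (by omega)
          have hj0 : (0 : ℝ) < (j : ℝ) := by exact_mod_cast hpos
          have hi0 : (0 : ℝ) ≤ (i : ℝ) := Nat.cast_nonneg i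
          push_cast
          have a3 : (j : ℝ) * (((j : ℝ) + 1) * f i) ≤ (j : ℝ) * ((i : ℝ) * f (j + 1)) := by
            calc (j : ℝ) * (((j : ℝ) + 1) * f i) = ((j : ℝ) + 1) * ((j : ℝ) * f i) := by ring
              _ ≤ ((j : ℝ) + 1) * ((i : ℝ) * f j) := by
                  apply mul_le_mul_of_nonneg_left a1; positivity
              _ = (i : ℝ) * (((j : ℝ) + 1) * f j) := by ring
              _ ≤ (i : ℝ) * ((j : ℝ) * f (j + 1)) := mul_le_mul_of_nonneg_left a2 hi0
              _ = (j : ℝ) * ((i : ℝ) * f (j + 1)) := by ring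
          exact le_of_mul_le_mul_left a3 hj0
  intro i hi
  have a := h2 k i hi hk le_rfl
  have hk0 : (0 : ℝ) < (k : ℝ) := by exact_mod_cast hk
  rw [div_mul_eq_mul_div, le_div_iff₀ hk0]
  linarith

/-! ### facts on discrete geodesics -/

theorem kgeo_two_le {L : ℝ} {q : ℕ → M} (hq : KGeo k L q) (hk : 0 < k)
    (hL : L ≤ k * (r0 / 16)) : L / k ≤ r0 / 16 := by
  have hk0 : (0 : ℝ) < (k : ℝ) := by exact_mod_cast hk
  rw [div_le_iff₀ hk0]
  linarith

theorem kgeo_mid (h : LCN M r0) (hk : 0 < k) {L : ℝ} {q : ℕ → M} (hq : KGeo k L q)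
    (hL : L ≤ k * (r0 / 16)) {i : ℕ} (hi : i + 1 < k) :
    IsMid r0 (q i) (q (i + 2)) (q (i + 1)) := by
  have h0 := h.1
  have h1 := kgeo_two_le hq hk hL
  have h2 := hq.two i hi
  have h3 := hq.step i (by omega)
  have h4 := hq.step (i + 1) hi
  apply IsMid.of_eq h
  · rw [h2]; linarith
  · rw [h2, h3]; linarith
  · rw [h2, dist_comm]; linarith [h4]

/-- B5a -/
theorem kgeo_conv (h : LCN M r0) (hk : 0 < k) {L L' : ℝ} {q q' : ℕ → M} (hq : KGeo k L q)
    (hq' : KGeo k L' q') (hL : L ≤ k * (r0 / 16)) (hL' : L' ≤ k * (r0 / 16)) (h0 : q 0 = q' 0)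
    (hd : ∀ i, i ≤ k → dist (q i) (q' i) ≤ 2 * (r0 / 16)) :
    ∀ i, i ≤ k → dist (q i) (q' i) ≤ (i / k : ℝ) * dist (q k) (q' k) := by
  have hr := h.1
  have b1 := kgeo_two_le hq hk hL
  have b2 := kgeo_two_le hq' hk hL'
  apply discrete_conv (fun i => dist (q i) (q' i)) (by simp [h0]) _ hk
  intro i hi
  have a1 := hq.two i hi
  have a2 := hq'.two i hi
  have a3 := hd i (by omega)
  have a4 := hd (i + 2) (by omega)
  have := IsMid.dist_le h (kgeo_mid h hk hq hL hi) (kgeo_mid h hk hq' hL' hi)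
    (by rw [a1]; linarith) (by rw [a2]; linarith)
    (by have := dist_triangle (q i) (q (i + 2)) (q' (i + 2)); rw [a1] at this; linarith)
    (by linarith) (by linarith)
  show 2 * dist (q (i + 1)) (q' (i + 1)) ≤ dist (q i) (q' i) + dist (q (i + 2)) (q' (i + 2))
  linarith

/-! ### the straightening procedure -/

open Classical in
/-- a midpoint of `x` and `y` (if `x`, `y` are close) -/
noncomputable def midp (r0 : ℝ) (x y : M) : M :=
  if h : ∃ m, IsMid r0 x y m then Classical.choose h else x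

theorem midp_isMid (h : LCN M r0) {x y : M} (hxy : dist x y < r0) :
    IsMid r0 x y (midp r0 x y) := by
  unfold midp
  have e := exists_mid h hxy
  rw [dif_pos e]
  exact Classical.choose_spec e

open Classical in
/-- one step of the straightening -/
noncomputable def stepT (r0 : ℝ) (k : ℕ) (p : ℕ → M) : ℕ → M := fun i =>
  if i = 0 then p 0 else if i < k then midp r0 (p (i - 1)) (p (i + 1)) else p i

theorem stepT_zero (p : ℕ → M) : stepT r0 k p 0 = p 0 := by simp [stepT]

theorem stepT_ge (hk : 0 < k) (p : ℕ → M) {i : ℕ} (hi : k ≤ i) : stepT r0 k p i = p i := by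
  have : i ≠ 0 := by omega
  have h2 : ¬ i < k := by omega
  simp [stepT, this, h2]

theorem stepT_succ (p : ℕ → M) {i : ℕ} (hi : i + 1 < k) :
    stepT r0 k p (i + 1) = midp r0 (p i) (p (i + 2)) := by
  simp [stepT, hi]

/-- the hypotheses which are preserved by the straightening -/
structure Near (r0 : ℝ) (k : ℕ) (δ : ℝ) (q : ℕ → M) (x' : M) (p : ℕ → M) : Prop where
  zero : p 0 = q 0
  fin : ∀ i, k ≤ i → p i = x'
  close : ∀ i, i ≤ k → dist (p i) (q i) ≤ (i / k : ℝ) * δ

theorem Near.le {δ : ℝ} {q : ℕ → M} {x' : M} {p : ℕ → M} (hn : Near r0 k δ q x' p) (hk : 0 < k)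
    (hδ : 0 ≤ δ) {i : ℕ} (hi : i ≤ k) : dist (p i) (q i) ≤ δ := by
  refine (hn.close i hi).trans ?_
  have hk0 : (0 : ℝ) < (k : ℝ) := by exact_mod_cast hk
  have : (i / k : ℝ) ≤ 1 := by
    rw [div_le_one hk0]; exact_mod_cast hi
  nlinarith

theorem Near.dist_two (h : LCN M r0) (hk : 0 < k) {L δ : ℝ} {q : ℕ → M} (hq : KGeo k L q)
    (hL : L ≤ k * (r0 / 16)) (hδ : 0 ≤ δ) (hδ' : δ ≤ r0 / 16) {x' : M} {p : ℕ → M}
    (hn : Near r0 k δ q x' p) {i : ℕ} (hi : i + 1 < k) : dist (p i) (p (i + 2)) ≤ r0 / 4 := by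
  have b1 := kgeo_two_le hq hk hL
  have a1 := hq.two i hi
  have a2 := hn.le hk hδ (i := i) (by omega)
  have a3 := hn.le hk hδ (i := i + 2) (by omega)
  have a4 := dist_triangle (p i) (q i) (p (i + 2))
  have a5 := dist_triangle (q i) (q (i + 2)) (p (i + 2))
  rw [dist_comm (q (i + 2))] at a5
  linarith

theorem Near.step (h : LCN M r0) (hk : 0 < k) {L δ : ℝ} {q : ℕ → M} (hq : KGeo k L q)
    (hL : L ≤ k * (r0 / 16)) (hδ : 0 ≤ δ) (hδ' : δ ≤ r0 / 16) {x' : M} {p : ℕ → M}
    (hn : Near r0 k δ q x' p) : Near r0 k δ q x' (stepT r0 k p) := by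
  have h0 := h.1
  have hk0 : (0 : ℝ) < (k : ℝ) := by exact_mod_cast hk
  refine ⟨by rw [stepT_zero, hn.zero], fun i hi => by rw [stepT_ge hk p hi, hn.fin i hi], ?_⟩
  intro i hi
  rcases i with _ | i
  · rw [stepT_zero]; exact hn.close 0 hi
  rcases Nat.eq_or_lt_of_le hi with e | hlt
  · rw [stepT_ge hk p (by omega)]; exact hn.close _ hi
  rw [stepT_succ p hlt]
  have b1 := kgeo_two_le hq hk hL
  have a1 := hq.two i hlt
  have c1 := hn.le hk hδ (i := i) (by omega)
  have c2 := hn.le hk hδ (i := i + 2) (by omega)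
  have d1 := hn.dist_two h hk hq hL hδ hδ' hlt
  have c3 := dist_triangle (p i) (q i) (q (i + 2))
  have := IsMid.dist_le h (midp_isMid h (x := p i) (y := p (i + 2)) (by linarith))
    (kgeo_mid h hk hq hL hlt) (by linarith) (by rw [a1]; linarith) (by linarith) (by linarith)
    (by linarith)
  have e1 := hn.close i (by omega)
  have e2 := hn.close (i + 2) (by omega)
  refine this.trans ?_
  have e3 : ((i : ℝ) / k * δ + ((i + 2 : ℕ) : ℝ) / k * δ) / 2 = (((i + 1 : ℕ) : ℝ) / k) * δ := by
    push_cast; field_simp; ring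
  linarith

theorem Near.contr (h : LCN M r0) (hk : 0 < k) {L δ : ℝ} {q : ℕ → M} (hq : KGeo k L q)
    (hL : L ≤ k * (r0 / 16)) (hδ : 0 ≤ δ) (hδ' : δ ≤ r0 / 16) {x' : M} {p p' : ℕ → M}
    (hn : Near r0 k δ q x' p) (hn' : Near r0 k δ q x' p') {i : ℕ} (hi : i + 1 < k) :
    dist (stepT r0 k p (i + 1)) (stepT r0 k p' (i + 1)) ≤
      (dist (p i) (p' i) + dist (p (i + 2)) (p' (i + 2))) / 2 := by
  have h0 := h.1
  rw [stepT_succ p hi, stepT_succ p' hi]
  have d1 := hn.dist_two h hk hq hL hδ hδ' hi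
  have d2 := hn'.dist_two h hk hq hL hδ hδ' hi
  have c1 := hn.le hk hδ (i := i) (by omega)
  have c2 := hn.le hk hδ (i := i + 2) (by omega)
  have c1' := hn'.le hk hδ (i := i) (by omega)
  have c2' := hn'.le hk hδ (i := i + 2) (by omega)
  have t1 := dist_triangle_right (p i) (p' i) (q i)
  have t2 := dist_triangle_right (p (i + 2)) (p' (i + 2)) (q (i + 2))
  have t3 := dist_triangle (p i) (p (i + 2)) (p' (i + 2))
  exact IsMid.dist_le h (midp_isMid h (by linarith)) (midp_isMid h (by linarith))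
    (by linarith) (by linarith) (by linarith) (by linarith) (by linarith)

/-- B5b -/
theorem kgeo_move [CompleteSpace M] (h : LCN M r0) (hk : 0 < k) {L : ℝ} {q : ℕ → M}
    (hq : KGeo k L q) (x' : M) (hL : L + dist (q k) x' ≤ k * (r0 / 16))
    (hd : dist (q k) x' ≤ r0 / 16) :
    ∃ (q' : ℕ → M) (L' : ℝ), KGeo k L' q' ∧ q' 0 = q 0 ∧ q' k = x' ∧
      (∀ i, i ≤ k → dist (q i) (q' i) ≤ (i / k : ℝ) * dist (q k) x') ∧
      L' ≤ L + dist (q k) x' := by
  classical
  have h0 := h.1
  have hk0 : (0 : ℝ) < (k : ℝ) := by exact_mod_cast hk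
  set δ := dist (q k) x' with hδdef
  have hδ : 0 ≤ δ := dist_nonneg
  have hL1 : L ≤ k * (r0 / 16) := by linarith
  -- the sequence
  let p : ℕ → ℕ → M := fun n => Nat.rec (fun i => if i < k then q i else x')
    (fun _ p => stepT r0 k p) n
  have hp0 : p 0 = fun i => if i < k then q i else x' := rfl
  have hps : ∀ n, p (n + 1) = stepT r0 k (p n) := fun n => rfl
  have hn : ∀ n, Near r0 k δ q x' (p n) := by
    intro n
    induction n with
    | zero =>
      refine ⟨by simp [hp0, hk], fun i hi => by simp [hp0, Nat.not_lt.2 hi], fun i hi => ?_⟩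
      rcases Nat.eq_or_lt_of_le hi with e | hlt
      · subst e
        simp only [hp0, lt_irrefl, if_false]
        rw [div_self hk0.ne', one_mul, dist_comm]
      · simp only [hp0, hlt, if_true, dist_self]
        positivity
    | succ n ih => rw [hps]; exact ih.step h hk hq hL1 hδ hd
  have hzero : ∀ n, p n 0 = q 0 := fun n => (hn n).zero
  have hfin : ∀ n i, k ≤ i → p n i = x' := fun n => (hn n).fin
  -- contraction
  set ρ : ℝ := 1 - 1 / (k : ℝ) ^ 2 with hρ
  have hk1 : (1 : ℝ) ≤ k := by exact_mod_cast hk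
  have hρ0 : 0 ≤ ρ := by
    rw [hρ, sub_nonneg, div_le_one (by positivity)]
    nlinarith
  have hρ1 : ρ < 1 := by
    rw [hρ]
    have : 0 < 1 / (k : ℝ) ^ 2 := by positivity
    linarith
  have hw : ∀ n i, i ≤ k → dist (p n i) (p (n + 1) i) ≤
      (2 * δ) * ρ ^ n * ((i : ℝ) * (k - i)) := by
    intro n
    induction n with
    | zero =>
      intro i hi
      rcases i with _ | i
      · rw [hzero 0, hzero (0 + 1), dist_self]
        simp
      rcases Nat.eq_or_lt_of_le hi with e | hlt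
      · rw [hfin 0 (i + 1) (by omega), hfin (0 + 1) (i + 1) (by omega), dist_self, ← e]
        simp
      · have a1 := (hn 0).le hk hδ hi
        have a2 := (hn 1).le hk hδ hi
        have a3 := dist_triangle_right (p 0 (i + 1)) (p (0 + 1) (i + 1)) (q (i + 1))
        have a4 : (1 : ℝ) ≤ ((i + 1 : ℕ) : ℝ) := by exact_mod_cast Nat.succ_pos i
        have a5 : (1 : ℝ) ≤ (k : ℝ) - ((i + 1 : ℕ) : ℝ) := by
          have : ((i + 1 : ℕ) : ℝ) + 1 ≤ k := by exact_mod_cast hlt
          linarith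
        have a6 : (1 : ℝ) ≤ ((i + 1 : ℕ) : ℝ) * ((k : ℝ) - ((i + 1 : ℕ) : ℝ)) := by nlinarith
        rw [pow_zero, mul_one]
        simp only [zero_add] at a3 ⊢
        nlinarith
    | succ n ih =>
      intro i hi
      rcases i with _ | i
      · rw [hzero (n + 1), hzero (n + 1 + 1), dist_self]
        simp
      rcases Nat.eq_or_lt_of_le hi with e | hlt
      · rw [hfin (n + 1) (i + 1) (by omega), hfin (n + 1 + 1) (i + 1) (by omega), dist_self, ← e]
        simp
      · have a1 := ih i (by omega)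
        have a2 := ih (i + 2) (by omega)
        have a3 : dist (p (n + 1) (i + 1)) (p (n + 1 + 1) (i + 1)) ≤
            (dist (p n i) (p (n + 1) i) + dist (p n (i + 2)) (p (n + 1) (i + 2))) / 2 :=
          (hn n).contr h hk hq hL1 hδ hd (hn (n + 1)) hlt
        refine a3.trans ?_
        have hc : 0 ≤ 2 * δ * ρ ^ n := by positivity
        have a4 : (((i : ℝ) * (k - i)) + ((i + 2 : ℕ) : ℝ) * (k - ((i + 2 : ℕ) : ℝ))) / 2
            ≤ ρ * (((i + 1 : ℕ) : ℝ) * (k - ((i + 1 : ℕ) : ℝ))) := by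
          have e1 : (((i : ℝ) * (k - i)) + ((i + 2 : ℕ) : ℝ) * (k - ((i + 2 : ℕ) : ℝ))) / 2
              = ((i + 1 : ℕ) : ℝ) * (k - ((i + 1 : ℕ) : ℝ)) - 1 := by
            push_cast; ring
          rw [e1, hρ, sub_mul, one_mul]
          have e2 : ((i + 1 : ℕ) : ℝ) * (k - ((i + 1 : ℕ) : ℝ)) ≤ (k : ℝ) ^ 2 := by
            have : ((i + 1 : ℕ) : ℝ) ≤ k := by exact_mod_cast hi
            have h3 : (0 : ℝ) ≤ ((i + 1 : ℕ) : ℝ) := Nat.cast_nonneg _
            nlinarith
          have e3 : 1 / (k : ℝ) ^ 2 * (((i + 1 : ℕ) : ℝ) * (k - ((i + 1 : ℕ) : ℝ))) ≤ 1 := by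
            rw [one_div, inv_mul_le_iff₀ (by positivity)]
            linarith
          linarith
        calc (dist (p n i) (p (n + 1) i) + dist (p n (i + 2)) (p (n + 1) (i + 2))) / 2
            ≤ (2 * δ * ρ ^ n) * ((((i : ℝ) * (k - i)) +
              ((i + 2 : ℕ) : ℝ) * (k - ((i + 2 : ℕ) : ℝ))) / 2) := by linarith
          _ ≤ (2 * δ * ρ ^ n) * (ρ * (((i + 1 : ℕ) : ℝ) * (k - ((i + 1 : ℕ) : ℝ)))) :=
              mul_le_mul_of_nonneg_left a4 hc
          _ = _ := by rw [pow_succ]; ring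
  have hgeo : ∀ i, i ≤ k → ∀ n, dist (p n i) (p (n + 1) i) ≤ (2 * δ * (k : ℝ) ^ 2) * ρ ^ n := by
    intro i hi n
    refine (hw n i hi).trans ?_
    have e2 : (i : ℝ) * (k - i) ≤ (k : ℝ) ^ 2 := by
      have : (i : ℝ) ≤ k := by exact_mod_cast hi
      have h3 : (0 : ℝ) ≤ (i : ℝ) := Nat.cast_nonneg _
      nlinarith
    have hc : 0 ≤ 2 * δ * ρ ^ n := by positivity
    calc 2 * δ * ρ ^ n * ((i : ℝ) * (k - i)) ≤ 2 * δ * ρ ^ n * (k : ℝ) ^ 2 :=
          mul_le_mul_of_nonneg_left e2 hc
      _ = _ := by ring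
  have hlim : ∀ i, ∃ y, Filter.Tendsto (fun n => p n i) Filter.atTop (nhds y) := by
    intro i
    rcases le_total i k with hi | hi
    · exact cauchySeq_tendsto_of_complete (cauchySeq_of_le_geometric ρ _ hρ1 (hgeo i hi))
    · refine ⟨x', ?_⟩
      have : (fun n => p n i) = fun _ => x' := funext fun n => (hn n).fin i hi
      rw [this]
      exact tendsto_const_nhds
  choose q' hq' using hlim
  have hq0 : q' 0 = q 0 := by
    have : (fun n => p n 0) = fun _ => q 0 := funext fun n => (hn n).zero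
    have h2 := hq' 0
    rw [this] at h2
    exact tendsto_nhds_unique h2 tendsto_const_nhds
  have hqk : ∀ i, k ≤ i → q' i = x' := by
    intro i hi
    have : (fun n => p n i) = fun _ => x' := funext fun n => (hn n).fin i hi
    have h2 := hq' i
    rw [this] at h2
    exact tendsto_nhds_unique h2 tendsto_const_nhds
  have hclose : ∀ i, i ≤ k → dist (q i) (q' i) ≤ (i / k : ℝ) * δ := by
    intro i hi
    have h1 : Filter.Tendsto (fun n => dist (q i) (p n i)) Filter.atTop (nhds (dist (q i) (q' i))) :=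
      tendsto_const_nhds.dist (hq' i)
    refine le_of_tendsto h1 (Filter.Eventually.of_forall fun n => ?_)
    rw [dist_comm]
    exact (hn n).close i hi
  have hmid : ∀ i, i + 1 < k → dist (q' i) (q' (i + 1)) = dist (q' i) (q' (i + 2)) / 2 ∧
      dist (q' (i + 2)) (q' (i + 1)) = dist (q' i) (q' (i + 2)) / 2 := by
    intro i hi
    have a0 : Filter.Tendsto (fun n => p (n + 1) (i + 1)) Filter.atTop (nhds (q' (i + 1))) :=
      (hq' (i + 1)).comp (Filter.tendsto_add_atTop_nat 1)
    have a1 : Filter.Tendsto (fun n => dist (p n i) (p (n + 1) (i + 1))) Filter.atTop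
        (nhds (dist (q' i) (q' (i + 1)))) := (hq' i).dist a0
    have a2 : Filter.Tendsto (fun n => dist (p n (i + 2)) (p (n + 1) (i + 1))) Filter.atTop
        (nhds (dist (q' (i + 2)) (q' (i + 1)))) := (hq' (i + 2)).dist a0
    have a3 : Filter.Tendsto (fun n => dist (p n i) (p n (i + 2)) / 2) Filter.atTop
        (nhds (dist (q' i) (q' (i + 2)) / 2)) := ((hq' i).dist (hq' (i + 2))).div_const 2
    have b : ∀ n, IsMid r0 (p n i) (p n (i + 2)) (p (n + 1) (i + 1)) := by
      intro n
      rw [hps, stepT_succ _ hi]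
      have := (hn n).dist_two h hk hq hL1 hδ hd hi
      exact midp_isMid h (by linarith)
    have b' : ∀ n, dist (p n i) (p n (i + 2)) < r0 := by
      intro n
      have := (hn n).dist_two h hk hq hL1 hδ hd hi
      linarith
    constructor
    · refine tendsto_nhds_unique a1 ?_
      have : (fun n => dist (p n i) (p (n + 1) (i + 1))) = fun n => dist (p n i) (p n (i + 2)) / 2 :=
        funext fun n => (b n).left' h0 (b' n)
      rw [this]; exact a3
    · refine tendsto_nhds_unique a2 ?_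
      have : (fun n => dist (p n (i + 2)) (p (n + 1) (i + 1))) =
          fun n => dist (p n i) (p n (i + 2)) / 2 :=
        funext fun n => (b n).right' h0 (b' n)
      rw [this]; exact a3
  have hstep : ∀ i, i < k → dist (q' i) (q' (i + 1)) = dist (q' 0) (q' 1) := by
    intro i
    induction i with
    | zero => intro _; rfl
    | succ i ih =>
      intro hi
      rw [← ih (by omega), (hmid i hi).1, ← (hmid i hi).2, dist_comm]
  refine ⟨q', k * dist (q' 0) (q' 1), ⟨fun i hi => ?_, fun i hi => ?_, fun i hi => ?_⟩, hq0,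
    hqk k le_rfl, hclose, ?_⟩
  · rw [hstep i hi]; field_simp
  · have a1 := (hmid i hi).1
    rw [hstep i (by omega)] at a1
    have : dist (q' i) (q' (i + 2)) = 2 * dist (q' 0) (q' 1) := by linarith
    rw [this]; field_simp
  · rw [hqk i hi, hqk k le_rfl]
  · have a1 := hclose 1 hk
    have a2 := hq.step 0 hk
    have a3 := dist_triangle (q 0) (q 1) (q' 1)
    rw [hq0]
    have a4 : dist (q 0) (q' 1) ≤ L / k + (1 / k : ℝ) * δ := by
      rw [zero_add] at a2
      push_cast at a1
      linarith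
    calc (k : ℝ) * dist (q 0) (q' 1) ≤ k * (L / k + (1 / k : ℝ) * δ) :=
          mul_le_mul_of_nonneg_left a4 hk0.le
      _ = L + δ := by field_simp

end

end Pool.Agent.helper37.FJ3
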